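import Mathlib

set_option autoImplicit false

namespace Pool.Agent.Results.MP_d3e052_al.Counterexample

open FreeGroup Filter

/-- The group `ℤ^m × F_n`. -/
abbrev FATF (m n : ℕ) := Multiplicative (Fin m → ℤ) × FreeGroup (Fin n)

/-- The auto-fixed closure: the elements fixed by every automorphism that fixes `H` pointwise. -/
def aCl {G : Type} [Group G] (H : Subgroup G) : Subgroup G :=
  ⨅ φ ∈ {φ : G ≃* G | ∀ h ∈ H, φ h = h}, MonoidHom.eqLocus (φ : G →* G) (MonoidHom.id G)

/-- The endo-fixed closure: the elements fixed by every endomorphism that fixes `H` pointwise. -/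
def eCl {G : Type} [Group G] (H : Subgroup G) : Subgroup G :=
  ⨅ φ ∈ {φ : G →* G | ∀ h ∈ H, φ h = h}, MonoidHom.eqLocus φ (MonoidHom.id G)

lemma cent {α : Type} [DecidableEq α] (i : α) : ∀ L : List (α × Bool), IsReduced L →
    Commute (mk L) (of i) → mk L ∈ Subgroup.zpowers (of i)
  | [], _, _ => one_mem _
  | (x, s) :: L, hL, h => by
    by_cases e : x = i
    · subst e
      have h1 : mk [(x, s)] ∈ Subgroup.zpowers (of x) := by
        cases s
        · exact inv_mem (Subgroup.mem_zpowers (of x))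
        exact Subgroup.mem_zpowers _
      obtain ⟨k, hk⟩ := h1
      have h2 : mk ((x, s) :: L) = of x ^ k * mk L := by
        rw [show of x ^ k = _ from hk, mul_mk]; rfl
      rw [h2] at h ⊢
      refine mul_mem ⟨k, rfl⟩ (cent x L (List.IsChain.tail hL) ?_)
      simpa using ((Commute.refl (of x)).zpow_left k).inv_left.mul_left h
    have h1 : IsReduced ((i, true) :: (x, s) :: L) :=
      List.isChain_cons_cons.mpr ⟨fun h => absurd h.symm e, hL⟩
    have h2 : reduce ((x, s) :: L ++ [(i, true)]) = (i, true) :: (x, s) :: L :=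
      (reduce.sound h.eq).trans h1.reduce_eq
    have h3 := (h2 ▸ Red.sublist (reduce.red (L := (x, s) :: L ++ [(i, true)]))).eq_of_length
      (by simp)
    simp only [List.cons_append, List.cons.injEq, Prod.mk.injEq] at h3
    exact absurd h3.1.1.symm e

abbrev a : FreeGroup (Fin 2) := of 0
abbrev b : FreeGroup (Fin 2) := of 1

lemma rigid (u : FreeGroup (Fin 2)) (h1 : u * b * u⁻¹ = a * b * a⁻¹)
    (h2 : u⁻¹ * b * u = a⁻¹ * b * a) : u = a := by
  have key (v : FreeGroup (Fin 2)) (h : Commute v b) : ∃ k : ℤ, b ^ k = v := by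
    rw [← mk_toWord (x := v)] at h ⊢
    exact cent _ _ isReduced_toWord h
  obtain ⟨k, hk⟩ := key (a⁻¹ * u) (by
    rw [Commute, SemiconjBy]
    calc _ = a⁻¹ * (u * b * u⁻¹) * u := by group
      _ = _ := by rw [h1]; group)
  obtain ⟨j, hj⟩ := key (u * a⁻¹) (by
    rw [Commute, SemiconjBy]
    calc _ = u * (a⁻¹ * b * a) * a⁻¹ := by group
      _ = _ := by rw [← h2]; group)
  have h3 : a * b ^ k = b ^ j * a := by rw [hk, hj]; group
  let f : FreeGroup (Fin 2) →* Equiv.Perm (ℤ × ℤ) :=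
    lift ![Equiv.prodComm _ _, Equiv.addRight (1, 0)]
  have h4 := congrArg (fun w => (f w (0, 0)).2) h3
  simp [f] at h4
  rw [h4, zpow_zero] at hk
  exact (inv_mul_eq_one.mp hk.symm).symm

/-- Exponent sum in `a`. -/
def ex : FreeGroup (Fin 2) →* Multiplicative (Fin 1 → ℤ) := lift ![.ofAdd 1, 1]

def pm : FreeGroup (Fin 2) →* Equiv.Perm ℤ := lift ![Equiv.addRight 1, Equiv.swap 0 1]

lemma ev (w : FreeGroup (Fin 2)) : ∀ᶠ x in cofinite, pm w x = x + (ex w).toAdd 0 := by
  have h0 : ∀ᶠ x : ℤ in cofinite, Equiv.swap 0 1 x = x := by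
    filter_upwards [eventually_cofinite_ne 0, eventually_cofinite_ne 1] with x h1 h2
    exact Equiv.swap_apply_of_ne_of_ne h1 h2
  induction w with
  | C1 => simp
  | of i =>
    fin_cases i
    · simp [pm, ex]
    simpa [pm, ex] using h0
  | inv_of i _ =>
    fin_cases i
    · simp [pm, ex]
    simpa [pm, ex] using h0
  | mul v w hv hw =>
    filter_upwards [hw, (add_left_injective ((ex w).toAdd 0)).tendsto_cofinite.eventually hv]
      with x h1 h2
    rw [_root_.map_mul, _root_.map_mul, Equiv.Perm.mul_apply, h1, h2, toAdd_mul, Pi.add_apply]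
    ring

/-- The automorphism `t ↦ t`, `a ↦ t a`, `b ↦ b`. -/
def tw : FATF 1 2 ≃* FATF 1 2 where
  toFun g := (g.1 * ex g.2, g.2)
  invFun g := (g.1 * (ex g.2)⁻¹, g.2)
  left_inv g := by simp
  right_inv g := by simp
  map_mul' g h := by simp [mul_mul_mul_comm]

def H : Subgroup (FATF 1 2) := Subgroup.closure {(1, b), (1, a * b * a⁻¹), (1, a⁻¹ * b * a)}

lemma not_fg (K : Subgroup (FATF 1 2)) (h1 : eCl H ≤ K) (h2 : K ≤ aCl H) : ¬ K.FG := by
  intro hK
  obtain ⟨S, hS, hf⟩ := (Subgroup.fg_iff K).mp hK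
  have h3 : ∀ᶠ x in cofinite, ∀ g ∈ S, pm g.2 x = x := by
    refine (eventually_all_finite hf).mpr fun g hg => ?_
    have h4 := h2 (hS ▸ Subgroup.subset_closure hg)
    simp only [aCl, Subgroup.mem_iInf] at h4
    have h5 : g.1 * ex g.2 = g.1 := congrArg Prod.fst (h4 tw fun h hh => by
      refine (Subgroup.closure_le (MonoidHom.eqLocus (tw : FATF 1 2 →* FATF 1 2)
        (MonoidHom.id _))).mpr ?_ hh
      rintro _ (rfl | rfl | rfl) <;> simp [MonoidHom.eqLocus, tw, ex])
    simpa [mul_eq_left.mp h5] using ev g.2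
  obtain ⟨x, hx⟩ := h3.exists
  have h4 : ((1, a ^ x * b * (a ^ x)⁻¹) : FATF 1 2) ∈ K := h1 <| by
    simp only [eCl, Subgroup.mem_iInf]
    intro φ hφ
    have e (w : FreeGroup (Fin 2)) : ((1, w) : FATF 1 2) = MonoidHom.inr _ _ w := rfl
    have k1 := hφ (1, b) (Subgroup.subset_closure (by simp))
    have k2 := hφ (1, a * b * a⁻¹) (Subgroup.subset_closure (by simp))
    have k3 := hφ (1, a⁻¹ * b * a) (Subgroup.subset_closure (by simp))
    simp only [e, _root_.map_mul, _root_.map_inv] at k1 k2 k3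
    rw [k1] at k2 k3
    have k4 := rigid _ (congrArg Prod.snd k2) (congrArg Prod.snd k3)
    change φ _ = _
    simp only [e, _root_.map_mul, _root_.map_inv, _root_.map_zpow, k1]
    ext
    · simp
    simp only [Prod.snd_mul, Prod.snd_inv, Prod.pow_snd, k4]
    rfl
  have h5 : K ≤ (MulAction.stabilizer (Equiv.Perm ℤ) x).comap (pm.comp (MonoidHom.snd _ _)) :=
    hS ▸ (Subgroup.closure_le _).mpr hx
  have h6 : pm (a ^ x * b * (a ^ x)⁻¹) x = x := h5 h4
  simp [pm] at h6

/-- A finitely generated subgroup of `ℤ × F₂` whose auto-fixed and endo-fixed closures are both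
not finitely generated. -/
theorem result : ∃ (m n : ℕ) (H : Subgroup (FATF m n)), H.FG ∧ ¬ (aCl H).FG ∧ ¬ (eCl H).FG := by
  have h : eCl H ≤ aCl H := by
    simp only [aCl, eCl]
    exact le_iInf₂ fun φ hφ => iInf₂_le (φ : FATF 1 2 →* FATF 1 2) hφ
  exact ⟨1, 2, H, (Subgroup.fg_iff _).mpr ⟨_, rfl, Set.toFinite _⟩, not_fg _ h le_rfl,
    not_fg _ le_rfl h⟩

end Pool.Agent.Results.MP_d3e052_al.Counterexample
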